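import Pool.Agent.helper73.AD.Basic

/-!
Module NZ of project ad: the Hamiltonian fields are independent on a family.
-/

namespace Pool.Agent.helper73.AD

open scoped BigOperators Topology

variable {J K : Type} [Fintype J] [DecidableEq J] [Fintype K] [DecidableEq K]

theorem NZ_rot_le {S : Sys J K} (Φ : SFam S) (T : K → ℝ) (x : PS J) :
    ‖S.rot (fun _ => (1 : ℝ)) (Φ.Z T) x‖ ≤ Fintype.card K * Φ.C * ‖x‖ := by
  have hC := Φ.C_pos
  refine norm_le_of_om _ _ (by positivity) fun y hy => ?_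
  rw [om_rot]
  unfold Sys.hv
  refine (Finset.abs_sum_le_sum_abs _ _).trans ?_
  have h : ∀ k ∈ (Finset.univ : Finset K), |(1 : ℝ) * hs (S.H k) (Φ.Z T) x y| ≤ Φ.C * ‖x‖ := by
    intro k _
    rw [one_mul]
    refine (Φ.hb T k x y).trans ?_
    have h1 : Real.exp (-|T k|) ≤ 1 := Real.exp_le_one_iff.mpr (by simp)
    calc Φ.C * Real.exp (-|T k|) * ‖x‖ * ‖y‖ ≤ Φ.C * 1 * ‖x‖ * 1 := by gcongr
      _ = Φ.C * ‖x‖ := by ring
  refine (Finset.sum_le_sum h).trans ?_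
  rw [Finset.sum_const, Finset.card_univ, nsmul_eq_mul]
  linarith

theorem NZ_zero (hDR : DR_stmt) {S : Sys J K} (Φ : SFam S) (T w : K → ℝ)
    (h0 : S.Xv w (Φ.Z T) = 0) (s : ℝ) (hs : 0 ≤ s) :
    S.Xv w (Φ.Z (T + s • (fun _ => (1 : ℝ)))) = 0 := by
  have hd := fun s => hDR J K S Φ w (fun _ => (1 : ℝ)) T s
  have h := norm_le_gronwallBound_of_norm_deriv_right_le
    (f := fun s : ℝ => S.Xv w (Φ.Z (T + s • (fun _ => (1 : ℝ)))))
    (f' := fun s : ℝ => S.rot (fun _ => (1 : ℝ)) (Φ.Z (T + s • (fun _ => (1 : ℝ))))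
      (S.Xv w (Φ.Z (T + s • (fun _ => (1 : ℝ))))))
    (δ := 0) (K := Fintype.card K * Φ.C) (ε := 0) (a := 0) (b := s)
    (fun u _ => (hd u).continuousAt.continuousWithinAt)
    (fun u _ => (hd u).hasDerivWithinAt)
    (by simp [h0])
    (fun u _ => by
      have := NZ_rot_le Φ (T + u • (fun _ => (1 : ℝ))) (S.Xv w (Φ.Z (T + u • (fun _ => (1 : ℝ)))))
      simpa using this)
    s ⟨hs, le_rfl⟩
  rw [gronwallBound_ε0] at h
  simpa using h

theorem NZ_lim {S : Sys J K} (Φ : SFam S) (T w : K → ℝ) (s : ℝ) :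
    ‖S.Xv w (Φ.Z (T + s • (fun _ => (1 : ℝ)))) - S.ev w‖
      ≤ (∑ k, |w k| * (Φ.C * Real.exp (-(T k)))) * Real.exp (-s) := by
  unfold Sys.Xv Sys.ev
  rw [← Finset.sum_sub_distrib]
  refine (norm_sum_le _ _).trans ?_
  rw [Finset.sum_mul]
  refine Finset.sum_le_sum fun k _ => ?_
  rw [← smul_sub, norm_smul, Real.norm_eq_abs, mul_assoc]
  refine mul_le_mul_of_nonneg_left ?_ (abs_nonneg _)
  refine (Φ.ep (T + s • (fun _ => (1 : ℝ))) k).trans (le_of_eq ?_)
  have e : (T + s • (fun _ => (1 : ℝ)) : K → ℝ) k = T k + s := by simp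
  rw [e, mul_assoc, ← Real.exp_add]
  congr 2
  ring

/-- NZ, from DR and IE -/
theorem NZ_of (hDR : DR_stmt) (hIE : IE_stmt) : NZ_stmt := by
  intro J K _ _ _ _ S Φ T w h0
  obtain ⟨_, hli⟩ := hIE J K S Φ
  have hev : S.ev w = 0 := by
    have hb : ∀ s : ℝ, 0 ≤ s → ‖S.ev w‖
        ≤ (∑ k, |w k| * (Φ.C * Real.exp (-(T k)))) * Real.exp (-s) := by
      intro s hs
      have h := NZ_lim Φ T w s
      rwa [NZ_zero hDR Φ T w h0 s hs, zero_sub, norm_neg] at h
    have hlim : Filter.Tendsto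
        (fun s : ℝ => (∑ k, |w k| * (Φ.C * Real.exp (-(T k)))) * Real.exp (-s))
        Filter.atTop (𝓝 0) := by
      have := (Real.tendsto_exp_neg_atTop_nhds_zero).const_mul
        (∑ k, |w k| * (Φ.C * Real.exp (-(T k))))
      simpa using this
    have : ‖S.ev w‖ ≤ 0 := by
      refine ge_of_tendsto hlim ?_
      filter_upwards [Filter.eventually_ge_atTop (0 : ℝ)] with s hs
      exact hb s hs
    exact norm_le_zero_iff.mp this
  ext k
  exact (Fintype.linearIndependent_iff.mp hli) w hev k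

end Pool.Agent.helper73.AD
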