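import Pool.Agent.helper73.AD.Basic

/-!
Module PD of project ad: positive combinations have positive definite Hessian, locally uniformly.
-/

namespace Pool.Agent.helper73.AD

open scoped BigOperators Topology

variable {J K : Type} [Fintype J] [DecidableEq J] [Fintype K] [DecidableEq K]

/-- the Hessian of a combination as a continuous linear map -/
noncomputable def PD_B (S : Sys J K) (τ : K → ℝ) (u : PS J) : PS J →L[ℝ] PS J →L[ℝ] ℝ :=
  ∑ k, τ k • fderiv ℝ (fun u => fderiv ℝ (S.H k) u) u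

theorem PD_B_apply (S : Sys J K) (τ : K → ℝ) (u x y : PS J) :
    PD_B S τ u x y = S.hv τ u x y := by
  simp [PD_B, Sys.hv, hs]

theorem PD_B_cont (S : Sys J K) (τ : K → ℝ) {z : PS J} (hz : z ∈ Cone J) :
    ContDiffAt ℝ 0 (PD_B S τ) z := by
  unfold PD_B
  refine ContDiffAt.sum fun k _ => ?_
  refine ContDiffAt.const_smul (τ k) ?_
  have h1 : ContDiffAt ℝ 1 (fun u => fderiv ℝ (S.H k) u) z :=
    (contDiffAt_H S k hz).fderiv_right (m := 1) (by norm_num)
  exact h1.fderiv_right (m := 0) (by norm_num)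

theorem PD_pos (S : Sys J K) (τ : K → ℝ) (hτ : ∀ k, 0 < τ k) {z : PS J} (hz : z ∈ Cone J)
    {x : PS J} (hx : x ≠ 0) : 0 < S.hv τ z x x := by
  have hnn : ∀ k ∈ (Finset.univ : Finset K), 0 ≤ τ k * hs (S.H k) z x x := fun k _ =>
    mul_nonneg (hτ k).le (S.psd k z hz x)
  refine lt_of_le_of_ne (Finset.sum_nonneg hnn) fun h => hx ?_
  have hall := (Finset.sum_eq_zero_iff_of_nonneg hnn).mp h.symm
  refine S.fill x fun k _ => S.ker k z hz x ?_
  rcases mul_eq_zero.mp (hall k (Finset.mem_univ k)) with h | h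
  · exact absurd h (hτ k).ne'
  · exact h

theorem PD_hom (S : Sys J K) (τ : K → ℝ) (z x : PS J) (c : ℝ) :
    S.hv τ z (c • x) (c • x) = c ^ 2 * S.hv τ z x x := by
  rw [← PD_B_apply, ← PD_B_apply, map_smul, map_smul]
  simp only [smul_apply, smul_eq_mul]
  ring

/-- PD -/
theorem PD : PD_stmt := by
  intro J K _ _ _ _ S τ hτ
  refine ⟨fun z hz x hx => PD_pos S τ hτ hz hx, fun z hz => ?_⟩
  -- lower bound at z
  obtain ⟨c, hc, hcz⟩ : ∃ c : ℝ, 0 < c ∧ ∀ x : PS J, ‖x‖ = 1 → 2 * c ≤ S.hv τ z x x := by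
    by_cases hne : (Metric.sphere (0 : PS J) 1).Nonempty
    · have hcont : ContinuousOn (fun x : PS J => S.hv τ z x x) (Metric.sphere (0 : PS J) 1) := by
        have : (fun x : PS J => S.hv τ z x x) = fun x => PD_B S τ z x x := by
          ext x; rw [PD_B_apply]
        rw [this]
        exact ((PD_B S τ z).continuous.clm_apply continuous_id).continuousOn
      obtain ⟨x0, hx0, hmin⟩ := (isCompact_sphere (0 : PS J) 1).exists_isMinOn hne hcont
      have hx0' : x0 ≠ 0 := by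
        intro h
        rw [h] at hx0
        simp at hx0
      refine ⟨S.hv τ z x0 x0 / 2, by linarith [PD_pos S τ hτ hz hx0'], fun x hx => ?_⟩
      have := hmin (show x ∈ Metric.sphere (0 : PS J) 1 by simpa using hx)
      have h2 : S.hv τ z x0 x0 ≤ S.hv τ z x x := this
      linarith
    · refine ⟨1, one_pos, fun x hx => ?_⟩
      exact absurd ⟨x, by simpa using hx⟩ hne
  refine ⟨c, hc, ?_⟩
  have hev := (Metric.continuousAt_iff'.mp (PD_B_cont S τ hz).continuousAt) c hc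
  filter_upwards [hev] with u hu x
  by_cases hx : x = 0
  · subst hx
    rw [← PD_B_apply]
    simp
  have hxn : 0 < ‖x‖ := norm_pos_iff.mpr hx
  have h1 : 2 * c ≤ S.hv τ z (‖x‖⁻¹ • x) (‖x‖⁻¹ • x) := by
    refine hcz _ ?_
    rw [norm_smul, norm_inv, norm_norm, inv_mul_cancel₀ hxn.ne']
  rw [PD_hom] at h1
  have h2 : 2 * c * ‖x‖ ^ 2 ≤ S.hv τ z x x := by
    have := mul_le_mul_of_nonneg_right h1 (sq_nonneg ‖x‖)
    have e : ‖x‖⁻¹ ^ 2 * S.hv τ z x x * ‖x‖ ^ 2 = S.hv τ z x x := by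
      field_simp
    rwa [e] at this
  have h3 : |S.hv τ u x x - S.hv τ z x x| ≤ c * ‖x‖ ^ 2 := by
    rw [← PD_B_apply, ← PD_B_apply]
    have e : PD_B S τ u x x - PD_B S τ z x x = (PD_B S τ u - PD_B S τ z) x x := by simp
    rw [e, ← Real.norm_eq_abs]
    calc ‖(PD_B S τ u - PD_B S τ z) x x‖ ≤ ‖(PD_B S τ u - PD_B S τ z) x‖ * ‖x‖ :=
          ContinuousLinearMap.le_opNorm _ _
      _ ≤ ‖PD_B S τ u - PD_B S τ z‖ * ‖x‖ * ‖x‖ := by
          gcongr; exact ContinuousLinearMap.le_opNorm _ _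
      _ ≤ c * ‖x‖ * ‖x‖ := by
          gcongr
          exact (dist_eq_norm (PD_B S τ u) (PD_B S τ z)).symm.le.trans hu.le
      _ = c * ‖x‖ ^ 2 := by ring
  have h4 := (abs_le.mp h3).1
  linarith

end Pool.Agent.helper73.AD
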