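import Pool.Agent.helper73.AD.Basic

/-!
Module SA of project ad: the system of the data.
-/

namespace Pool.Agent.helper73.AD

open scoped BigOperators Topology

theorem SA_c1 {J : Type} (A : Arc J) : A.c1 = A.src := by
  cases A <;> rfl

/-- SA, from KD, IV, GS and BF -/
theorem SA_of (hKD : KD_stmt) (hIV : IV_stmt) (hGS : GS_stmt) (hBF : BF_stmt) : SA_stmt := by
  intro J K _ _ _ _ D
  refine ⟨{
    H := fun k => (D.w k).H
    e := fun k => (D.w k).e
    N := fun k => (D.w k).N
    b := D.b
    card := D.card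
    b_nonneg := D.b_nonneg
    smooth := fun k => (hGS J).2.2.2.2 (D.w k) fun z hz => (hBF J (D.w k) z hz).1
    psd := fun k z hz x => (hKD J (D.w k) z hz x).1
    ker := fun k z hz x h => (hKD J (D.w k) z hz x).2 h
    inv := fun k z hz x hx => hIV J (D.w k) z hz x hx
    fill := fun x hx => ?_ }, fun k => rfl, fun k => rfl, rfl⟩
  ext j
  · obtain ⟨k, hk, i, hi⟩ := D.fill j
    have h := (hx k hk i).1
    rw [SA_c1, (D.w k).src_eq i, hi] at h
    simpa using h
  · obtain ⟨k, hk, i, hi⟩ := D.fill j
    have h := (hx k hk i).2.2.2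
    rw [hi] at h
    simpa using h

end Pool.Agent.helper73.AD
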