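import Pool.Agent.helper73.AD.Basic

/-!
Module SC of project ad: tangent inequality for the weighted sum, with its equality case.
-/

namespace Pool.Agent.helper73.AD

open scoped BigOperators Topology

variable {J K : Type} [Fintype J] [DecidableEq J] [Fintype K] [DecidableEq K]

omit [Fintype J] [DecidableEq J] in
theorem SC_line {z u : PS J} (hz : z ∈ Cone J) (hu : u ∈ Cone J) {s : ℝ} (h0 : 0 ≤ s)
    (h1 : s ≤ 1) : z + s • (u - z) ∈ Cone J := by
  have := convex_Cone hz hu (sub_nonneg.mpr h1) h0 (by ring)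
  have e : z + s • (u - z) = (1 - s) • z + s • u := by
    rw [smul_sub, sub_smul, one_smul]; abel
  rw [e]; exact this

omit [DecidableEq J] in
theorem SC_hasDerivAt_line (z x : PS J) (s : ℝ) :
    HasDerivAt (fun s : ℝ => z + s • x) x s := by
  have h := ((hasDerivAt_id s).smul_const x).const_add z
  simpa using h

theorem SC_d1 (S : Sys J K) (k : K) {z x : PS J} {s : ℝ} (h : z + s • x ∈ Cone J) :
    HasDerivAt (fun s : ℝ => S.H k (z + s • x)) (fderiv ℝ (S.H k) (z + s • x) x) s := by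
  have hd : DifferentiableAt ℝ (S.H k) (z + s • x) :=
    (contDiffAt_H S k h).differentiableAt (by norm_num)
  exact hd.hasFDerivAt.comp_hasDerivAt s (SC_hasDerivAt_line z x s)

theorem SC_d2 (S : Sys J K) (k : K) {z x : PS J} {s : ℝ} (h : z + s • x ∈ Cone J) (y : PS J) :
    HasDerivAt (fun s : ℝ => fderiv ℝ (S.H k) (z + s • x) y) (hs (S.H k) (z + s • x) x y) s := by
  have hd : DifferentiableAt ℝ (fun u => fderiv ℝ (S.H k) u) (z + s • x) :=
    ((contDiffAt_H S k h).fderiv_right (m := 1) (by norm_num)).differentiableAt (by norm_num)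
  have h1 := hd.hasFDerivAt.comp_hasDerivAt s (SC_hasDerivAt_line z x s)
  have h2 := ((ContinuousLinearMap.apply ℝ ℝ y).hasFDerivAt).comp_hasDerivAt s h1
  exact h2

theorem SC_main (S : Sys J K) (z u : PS J) (hz : z ∈ Cone J) (hu : u ∈ Cone J) :
    ∑ k, S.b k * S.H k z + om (S.Xv S.b z) (u - z) ≤ ∑ k, S.b k * S.H k u ∧
    (∑ k, S.b k * S.H k z + om (S.Xv S.b z) (u - z) = ∑ k, S.b k * S.H k u → u = z) := by
  obtain ⟨x, hx⟩ : ∃ x, x = u - z := ⟨_, rfl⟩
  rw [← hx]
  have hline : ∀ s : ℝ, 0 ≤ s → s ≤ 1 → z + s • x ∈ Cone J := fun s h0 h1 => by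
    rw [hx]; exact SC_line hz hu h0 h1
  set g : ℝ → ℝ := fun s => ∑ k, S.b k * S.H k (z + s • x) with hg
  set g1 : ℝ → ℝ := fun s => ∑ k, S.b k * fderiv ℝ (S.H k) (z + s • x) x with hg1
  have hd1 : ∀ s : ℝ, 0 ≤ s → s ≤ 1 → HasDerivAt g (g1 s) s := fun s h0 h1 =>
    HasDerivAt.fun_sum fun k _ => (SC_d1 S k (hline s h0 h1)).const_mul (S.b k)
  have hd2 : ∀ s : ℝ, 0 ≤ s → s ≤ 1 → HasDerivAt g1 (S.hv S.b (z + s • x) x x) s := fun s h0 h1 =>
    HasDerivAt.fun_sum fun k _ => (SC_d2 S k (hline s h0 h1) x).const_mul (S.b k)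
  have hpos : ∀ s : ℝ, 0 ≤ s → s ≤ 1 → 0 ≤ S.hv S.b (z + s • x) x x := fun s h0 h1 =>
    Finset.sum_nonneg fun k _ => mul_nonneg (S.b_nonneg k) (S.psd k (z + s • x) (hline s h0 h1) x)
  have hmono : MonotoneOn g1 (Set.Icc 0 1) := by
    refine monotoneOn_of_deriv_nonneg (convex_Icc 0 1)
      (fun s hs => (hd2 s hs.1 hs.2).continuousAt.continuousWithinAt)
      (fun s hs => ?_) (fun s hs => ?_)
    · rw [interior_Icc] at hs
      exact (hd2 s hs.1.le hs.2.le).differentiableAt.differentiableWithinAt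
    · rw [interior_Icc] at hs
      rw [(hd2 s hs.1.le hs.2.le).deriv]
      exact hpos s hs.1.le hs.2.le
  have hg0 : g 0 = ∑ k, S.b k * S.H k z := by simp [hg]
  have hgu : g 1 = ∑ k, S.b k * S.H k u := by
    have e : z + (1 : ℝ) • x = u := by rw [one_smul, hx]; abel
    simp only [hg, e]
  have hg10 : g1 0 = om (S.Xv S.b z) x := by
    rw [om_Xv]; simp [hg1]
  obtain ⟨c, hc, hcd⟩ := exists_hasDerivAt_eq_slope g g1 (zero_lt_one' ℝ)
    (fun s hs => (hd1 s hs.1 hs.2).continuousAt.continuousWithinAt)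
    (fun s hs => hd1 s hs.1.le hs.2.le)
  have hcd' : g1 c = g 1 - g 0 := by rw [hcd]; simp
  have hle : g1 0 ≤ g1 c := hmono ⟨le_rfl, zero_le_one⟩ ⟨hc.1.le, hc.2.le⟩ hc.1.le
  refine ⟨by rw [← hg0, ← hgu, ← hg10]; linarith, fun heq => ?_⟩
  have heq' : g1 c = g1 0 := by rw [← hg0, ← hgu, ← hg10] at heq; linarith
  -- g1 is constant on [0, c]
  have hconst : ∀ s : ℝ, 0 ≤ s → s ≤ c → g1 s = g1 0 := by
    intro s h0 h1
    have a1 : g1 0 ≤ g1 s := hmono ⟨le_rfl, zero_le_one⟩ ⟨h0, h1.trans hc.2.le⟩ h0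
    have a2 : g1 s ≤ g1 c := hmono ⟨h0, h1.trans hc.2.le⟩ ⟨hc.1.le, hc.2.le⟩ h1
    linarith
  have hc2 : 0 < c / 2 := by linarith [hc.1]
  have hc3 : c / 2 ≤ 1 := by linarith [hc.2]
  have hz0 : S.hv S.b (z + (c / 2) • x) x x = 0 := by
    have e1 := hd2 (c / 2) hc2.le hc3
    have e2 : HasDerivAt g1 0 (c / 2) := by
      refine (hasDerivAt_const (c / 2) (g1 0)).congr_of_eventuallyEq ?_
      filter_upwards [Ioo_mem_nhds hc2 (show c / 2 < c by linarith [hc.1])] with s hs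
      exact hconst s hs.1.le hs.2.le
    exact e1.unique e2
  have hmem := hline (c / 2) hc2.le hc3
  have hx0 : x = 0 := by
    refine S.fill x fun k hk => ?_
    have hterm : S.b k * hs (S.H k) (z + (c / 2) • x) x x = 0 := by
      have hall := (Finset.sum_eq_zero_iff_of_nonneg
        (fun k _ => mul_nonneg (S.b_nonneg k) (S.psd k _ hmem x))).mp hz0
      exact hall k (Finset.mem_univ k)
    have : hs (S.H k) (z + (c / 2) • x) x x = 0 := by
      rcases mul_eq_zero.mp hterm with h | h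
      · exact absurd h hk.ne'
      · exact h
    exact S.ker k _ hmem x this
  exact sub_eq_zero.mp (hx ▸ hx0)

/-- SC -/
theorem SC : SC_stmt := by
  intro J K _ _ _ _ S z u hz hu
  exact SC_main S z u hz hu

end Pool.Agent.helper73.AD
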